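import Mathlib
import Pool.Agent.H85.AAE2.Defs
import Pool.Agent.H71.AAE.S2
import Pool.Agent.H20.AAE2.DIM2

/-! Project AAE2 (MP_ae801b_ag), module S2: the dimension of the conductor locus. -/

set_option autoImplicit false

open Polynomial

namespace Pool.Agent.H85.AAE2

open Pool.Agent.H71.AAE

universe u

section S2

variable {k : Type u} [Field k] {N m : ℕ}

/-- homomorphisms out of the target given by a root of the quadratic relation -/
theorem hom_of_quad (φ : (MvPolynomial (Fin N) k)[X] →ₐ[k] MvPolynomial (Fin m) k)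
    (hφ : Function.Surjective φ)
    (hS : ∀ b, ∃ α β : MvPolynomial (Fin N) k, b = φ (C α) + φ (C β) * φ X)
    (s p : MvPolynomial (Fin N) k) (hg : φ X ^ 2 = φ (C s) * φ X - φ (C p))
    {T : Type u} [CommRing T] [Algebra k T] (π : MvPolynomial (Fin m) k →ₐ[k] T)
    (hπ : ∀ x ∈ cond φ, π x = 0) (t : T) (ht : t ^ 2 - π (φ (C s)) * t + π (φ (C p)) = 0) :
    ∃ θ : MvPolynomial (Fin m) k →ₐ[k] T, θ (φ X) = t ∧ ∀ ρ, θ (φ (C ρ)) = π (φ (C ρ)) := by
  set τ : MvPolynomial (Fin N) k →ₐ[k] T :=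
    π.comp (φ.comp (Algebra.ofId (MvPolynomial (Fin N) k)
        (MvPolynomial (Fin N) k)[X] |>.restrictScalars k)) with hτ
  have hτ' : ∀ ρ, τ ρ = π (φ (C ρ)) := fun ρ => rfl
  set ψ : (MvPolynomial (Fin N) k)[X] →ₐ[k] T :=
    { Polynomial.eval₂RingHom (τ : MvPolynomial (Fin N) k →+* _) t with
      commutes' := fun c => by
        show Polynomial.eval₂RingHom (τ : MvPolynomial (Fin N) k →+* _) t
          (algebraMap k (MvPolynomial (Fin N) k)[X] c) = _
        rw [Polynomial.algebraMap_apply, Polynomial.coe_eval₂RingHom, Polynomial.eval₂_C]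
        exact τ.commutes c } with hψ
  have hψC : ∀ ρ, ψ (C ρ) = π (φ (C ρ)) := by
    intro ρ
    show Polynomial.eval₂ (τ : MvPolynomial (Fin N) k →+* _) t (C ρ) = _
    rw [Polynomial.eval₂_C]
    exact hτ' ρ
  have hψX : ψ X = t := by
    show Polynomial.eval₂ (τ : MvPolynomial (Fin N) k →+* _) t X = _
    rw [Polynomial.eval₂_X]
  have hqa : ψ (qa s p) = 0 := by
    rw [qa, map_add, map_sub, map_mul, map_pow, hψC, hψC, hψX, ht]
  have hker : ∀ f, φ f = 0 → ψ f = 0 := by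
    intro f hf
    obtain ⟨w, α, β, rfl⟩ := exists_div s p f
    rw [map_add, map_mul, phi_qa φ s p hg, zero_mul, zero_add, map_add, map_mul] at hf
    obtain ⟨ha, hb⟩ := mem_cond_of_rel φ hS α β hf
    rw [map_add, map_mul, hqa, zero_mul, zero_add, map_add, map_mul, hψC, hψC,
      hπ _ ha, hπ _ hb]
    simp
  obtain ⟨θ, hθ⟩ := lift_hom φ hφ ψ hker
  refine ⟨θ, ?_, ?_⟩
  · rw [hθ, hψX]
  · intro ρ
    rw [hθ, hψC]

theorem dim_cond {k : Type u} [Field k] {N m δ : ℕ}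
    (φ : (MvPolynomial (Fin N) k)[X] →ₐ[k] MvPolynomial (Fin m) k) (hφ : Function.Surjective φ)
    (hS : ∀ b, ∃ α β : MvPolynomial (Fin N) k, b = φ (C α) + φ (C β) * φ X)
    (hp : ∀ e : Fin (δ + 1) ↪ Fin m, ∃ F : MvPolynomial (Fin (δ + 1)) k, F ≠ 0 ∧
      ∀ (Ω : Type u) [Field Ω] [Algebra k Ω] (p q : MvPolynomial (Fin m) k →ₐ[k] Ω),
      p (φ X) ≠ q (φ X) → (∀ ρ, p (φ (C ρ)) = q (φ (C ρ))) →
      MvPolynomial.aeval (fun i => p (MvPolynomial.X (e i))) F = 0)
    (hr : ∀ e : Fin (δ + 1) ↪ Fin m, ∃ F : MvPolynomial (Fin (δ + 1)) k, F ≠ 0 ∧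
      ∀ (Ω : Type u) [Field Ω] [Algebra k Ω] (θ : MvPolynomial (Fin m) k →ₐ[k] DualNumber Ω),
      TrivSqZeroExt.snd (θ (φ X)) ≠ 0 → (∀ ρ, TrivSqZeroExt.snd (θ (φ (C ρ))) = 0) →
      MvPolynomial.aeval (fun i => TrivSqZeroExt.fst (θ (MvPolynomial.X (e i)))) F = 0) (l : ℕ) :
    TrLE k δ (MvPolynomial (Fin m) k ⧸ (cond φ) ^ l) := by
  obtain ⟨α, s, hg0⟩ := hS (φ X ^ 2)
  obtain ⟨p, hpα⟩ : ∃ p, p = -α := ⟨_, rfl⟩
  have hg : φ X ^ 2 = φ (C s) * φ X - φ (C p) := by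
    rw [hpα, C_neg, map_neg, hg0]
    ring
  refine trLE_of_primes _ ?_
  intro P hP hle
  have hle' : cond φ ≤ P := by
    rcases Nat.eq_zero_or_pos l with rfl | hl
    · rw [pow_zero, Ideal.one_eq_top] at hle
      exact absurd (top_le_iff.1 hle) hP.ne_top
    · exact hP.le_of_pow_le hle
  refine trLE_of_gens (Ideal.Quotient.mkₐ k P) (Ideal.Quotient.mkₐ_surjective k P) ?_
  intro e
  obtain ⟨F1, hF1, hp1⟩ := hp e
  obtain ⟨F2, hF2, hr2⟩ := hr e
  refine ⟨F1 * F2, mul_ne_zero hF1 hF2, ?_⟩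
  let Ω := FractionRing (MvPolynomial (Fin m) k ⧸ P)
  have hinj : Function.Injective (algebraMap (MvPolynomial (Fin m) k ⧸ P) Ω) :=
    IsFractionRing.injective _ _
  set ι : MvPolynomial (Fin m) k ⧸ P →ₐ[k] Ω :=
    IsScalarTower.toAlgHom k (MvPolynomial (Fin m) k ⧸ P) Ω with hι
  set π : MvPolynomial (Fin m) k →ₐ[k] Ω := ι.comp (Ideal.Quotient.mkₐ k P) with hπ
  have hπc : ∀ x ∈ cond φ, π x = 0 := by
    intro x hx
    rw [hπ, AlgHom.comp_apply, Ideal.Quotient.mkₐ_eq_mk,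
      Ideal.Quotient.eq_zero_iff_mem.2 (hle' hx), map_zero]
  have hred : ∀ F : MvPolynomial (Fin (δ + 1)) k,
      MvPolynomial.aeval (fun i => π (MvPolynomial.X (e i))) F = 0 →
      MvPolynomial.aeval (fun i => Ideal.Quotient.mkₐ k P (MvPolynomial.X (e i))) F = 0 := by
    intro F hF
    apply hinj
    rw [map_zero, ← hF]
    have := MvPolynomial.comp_aeval_apply
      (fun i => Ideal.Quotient.mkₐ k P (MvPolynomial.X (e i))) ι F
    rw [show algebraMap (MvPolynomial (Fin m) k ⧸ P) Ω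
      (MvPolynomial.aeval (fun i => Ideal.Quotient.mkₐ k P (MvPolynomial.X (e i))) F) =
      ι (MvPolynomial.aeval (fun i => Ideal.Quotient.mkₐ k P (MvPolynomial.X (e i))) F) from rfl,
      this]
    rfl
  rw [map_mul]
  have hpr : (π (φ X)) ^ 2 = π (φ (C s)) * π (φ X) - π (φ (C p)) := by
    rw [← map_pow, hg, map_sub, map_mul]
  by_cases ht : π (φ X) = π (φ (C s)) - π (φ X)
  · -- the ramified case
    have h2 : (2 : Ω) * π (φ X) = π (φ (C s)) := by linear_combination ht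
    set D := DualNumber Ω with hD
    set π' : MvPolynomial (Fin m) k →ₐ[k] DualNumber Ω :=
      (TrivSqZeroExt.inlAlgHom k Ω Ω).comp π with hπ'
    have hπ'a : ∀ b, π' b = TrivSqZeroExt.inl (π b) := fun b => rfl
    obtain ⟨θ, hθX, hθC⟩ := hom_of_quad φ hφ hS s p hg π' (by
      intro x hx
      rw [hπ'a, hπc x hx, TrivSqZeroExt.inl_zero])
      (TrivSqZeroExt.inl (π (φ X)) + TrivSqZeroExt.inr 1) (by
      rw [hπ'a, hπ'a]
      ext
      · simp only [TrivSqZeroExt.fst_add, TrivSqZeroExt.fst_sub, TrivSqZeroExt.fst_mul,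
          TrivSqZeroExt.fst_pow, TrivSqZeroExt.fst_inl, TrivSqZeroExt.fst_inr, add_zero,
          TrivSqZeroExt.fst_zero]
        linear_combination hpr
      · simp only [pow_two, TrivSqZeroExt.snd_add, TrivSqZeroExt.snd_sub, TrivSqZeroExt.snd_mul,
          TrivSqZeroExt.snd_inl, TrivSqZeroExt.snd_inr, TrivSqZeroExt.fst_add,
          TrivSqZeroExt.fst_inl, TrivSqZeroExt.fst_inr, add_zero, zero_add,
          TrivSqZeroExt.snd_zero, smul_eq_mul, MulOpposite.smul_eq_mul_unop, MulOpposite.unop_op,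
          smul_zero, mul_one, one_mul]
        linear_combination h2)
    have hfst : ∀ b, TrivSqZeroExt.fst (θ b) = π b := by
      intro b
      obtain ⟨x, y, rfl⟩ := hS b
      rw [map_add, map_mul, hθX, hθC, hθC, hπ'a, hπ'a, map_add, map_mul]
      simp
    have h3 := hr2 Ω θ (by
      rw [hθX]
      simp only [TrivSqZeroExt.snd_add, TrivSqZeroExt.snd_inl, TrivSqZeroExt.snd_inr, zero_add]
      exact one_ne_zero) (by
      intro ρ
      rw [hθC, hπ'a]
      simp)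
    rw [hred F2 (by
      rw [← h3]
      congr 2
      ext i
      exact (hfst _).symm), mul_zero]
  · obtain ⟨q, hqX, hqC⟩ := hom_of_quad φ hφ hS s p hg π hπc (π (φ (C s)) - π (φ X)) (by
      linear_combination hpr)
    have h3 := hp1 Ω π q (by rwa [hqX]) (fun ρ => (hqC ρ).symm)
    rw [hred F1 h3, zero_mul]

end S2

end Pool.Agent.H85.AAE2
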